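import Pool.Agent.N595.ST.Transfer

/-!
# Almost all Cayley graphs of finite groups are stable

For every `ε > 0` there is `r₀` such that for every finite group `G` of order at least `r₀` the
proportion of the inverse-closed subsets `S` of `G` (the identity may belong to `S`) for which the
Cayley graph of `G` with connection set `S` is stable is at least `1 - ε`.

Outline. Write the relation `y * x⁻¹ ∈ S` between the two sides of the double cover as
`u * h ∈ S`, with `u = y` and `h = x⁻¹`; the pairs of permutations preserving it form a group `A`
which contains the translations `(u, h) ↦ (u * g⁻¹, g * h)`, and the graph is stable if it is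
connected and `α u * β u⁻¹ = 1` for all `(α, β)` in `A`. For a generic tuple of nine elements of
`G`, the numbers of common neighbours of `u` with three subsets of the tuple agree for `u` and `w`
with probability `O (|G| ^ (-3 / 2))`, so almost all vertices are determined by them; and the
numbers of common neighbours of all subsets of the tuple show that, with large probability, up to
translation the tuple has only boundedly many images under `A`. So `A` has at most a constant
times `|G|` elements, some subgroup of the translations of bounded index is normal in `A`, and there are only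
`|G| ^ (O (log |G|))` candidates for the elements of `A`. With large probability no candidate in
`A` changes the classes `{z, z⁻¹}` of many elements `z` of the group. A candidate changing few
classes satisfies `β 1 = 1` if `α 1 = 1`, by an argument with homomorphisms which agree with the
identity or with inversion up to a constant factor on almost all elements.
-/

set_option autoImplicit false

namespace Pool.Agent.Results.MP_439c3d_co.AlmostAllCayleyGraphsStable

open Pool.Agent.N595.ST

/-- **Almost all Cayley graphs of finite groups are stable.** -/
theorem result : ∀ ε : ℝ, 0 < ε → ∃ r₀ : ℕ, ∀ (G : Type) [Group G] [Finite G],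
    r₀ ≤ Nat.card G → 1 - ε ≤ stableProp G := by
  intro ε hε
  obtain ⟨N₀, hN₀⟩ := main_fraction ε hε
  refine ⟨N₀, ?_⟩
  intro G _ _ hG
  classical
  have := Fintype.ofFinite G
  obtain ⟨τ, hτ⟩ := exists_tr G
  rw [Nat.card_eq_fintype_card] at hG
  have h1 := hN₀ G τ hτ hG
  -- the number of bad inverse-closed sets
  have h2 := card_split hτ (fun S => ¬ (cayley S).Stable)
  have h3 := card_split hτ (fun _ => True)
  have h4 : Nat.card {R : Finset G // ¬ (cayley (toInv hτ R)).Stable} ≤
      Nat.card {R : Finset G // ¬ (Sep Finset.univ τ R ∧ Diag τ R)} := by
    refine Nat.card_le_card_of_injective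
      (fun R => ⟨R.1, fun h => R.2 (stable_of hτ h.1 h.2)⟩) ?_
    intro R R' h
    exact Subtype.ext (congrArg (fun x => x.1) h)
  have h5 : Nat.card {R : Finset G // True} = 2 ^ Fintype.card G := by
    rw [Nat.card_congr (Equiv.subtypeUnivEquiv fun _ => trivial), Nat.card_eq_fintype_card,
      Fintype.card_finset]
  have h6 : Nat.card {S : InvClosed G // True} = Nat.card (InvClosed G) :=
    Nat.card_congr (Equiv.subtypeUnivEquiv fun _ => trivial)
  rw [h5, h6] at h3
  obtain ⟨b, hb⟩ : ∃ b : ℕ, b = Nat.card (Finset {y : G // τ y ≠ y}) := ⟨_, rfl⟩
  rw [← hb] at h2 h3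
  have hb0 : 0 < b := by
    rw [hb]
    exact Nat.card_pos
  have hbr : (0 : ℝ) < b := by exact_mod_cast hb0
  have h7 : Nat.card {S : InvClosed G // (cayley S).Stable} +
      Nat.card {S : InvClosed G // ¬ (cayley S).Stable} = Nat.card (InvClosed G) := by
    rw [← Nat.card_sum]
    exact Nat.card_congr (Equiv.sumCompl _)
  have hpos : 0 < Nat.card (InvClosed G) := by
    have : Nonempty (InvClosed G) := ⟨⟨∅, fun s hs => hs.elim⟩⟩
    exact Nat.card_pos
  have hposr : (0 : ℝ) < Nat.card (InvClosed G) := by exact_mod_cast hpos
  have h8 : (Nat.card {S : InvClosed G // ¬ (cayley S).Stable} : ℝ) * b ≤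
      (ε * Nat.card (InvClosed G)) * b := by
    have e1 : ((Nat.card {R : Finset G // ¬ (cayley (toInv hτ R)).Stable} : ℕ) : ℝ) =
        (Nat.card {S : InvClosed G // ¬ (cayley S).Stable} : ℝ) * b := by
      rw [h2]
      push_cast
      rfl
    have e2 : ((2 : ℝ) ^ Fintype.card G) = (Nat.card (InvClosed G) : ℝ) * b := by
      exact_mod_cast h3
    rw [← e1, mul_assoc, ← e2]
    exact (Nat.cast_le.2 h4).trans h1
  have h9 := le_of_mul_le_mul_right h8 hbr
  have h10 : (Nat.card {S : InvClosed G // (cayley S).Stable} : ℝ) +
      Nat.card {S : InvClosed G // ¬ (cayley S).Stable} = Nat.card (InvClosed G) := by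
    exact_mod_cast h7
  unfold stableProp
  rw [le_div_iff₀ hposr]
  linarith

end Pool.Agent.Results.MP_439c3d_co.AlmostAllCayleyGraphsStable
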